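import Pool.Agent.Run7.h245.SR.Iface2

/-!
Piece UN1 (units outside a finite set of primes) of helper245's project SR.
-/

set_option autoImplicit false
set_option linter.all false

open NumberField IsDedekindDomain
open scoped Classical

namespace Pool.Agent.Run7.h382.SR

open Pool.Agent.Run7.h245.SR

section

variable {L : Type} [Field L] [NumberField L]

/-- the additive valuation -/
noncomputable def av (𝔓 : HeightOneSpectrum (𝓞 L)) : Additive Lˣ →+ ℤ where
  toFun x := Multiplicative.toAdd (𝔓.valuationOfNeZero x.toMul)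
  map_zero' := by simp
  map_add' x y := by simp [toMul_add, map_mul, toAdd_mul]

theorem av_eq_zero_iff (𝔓 : HeightOneSpectrum (𝓞 L)) (x : Additive Lˣ) :
    av 𝔓 x = 0 ↔ 𝔓.valuation L ((x.toMul : Lˣ) : L) = 1 := by
  rw [← 𝔓.valuationOfNeZero_eq]
  change Multiplicative.toAdd (𝔓.valuationOfNeZero x.toMul) = 0 ↔ _
  rw [toAdd_eq_zero, ← WithZero.coe_one, WithZero.coe_inj]

/-- an element whose only prime is `P` -/
theorem exists_gen (P : HeightOneSpectrum (𝓞 L)) : ∃ x : Additive Lˣ,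
    av P x ≠ 0 ∧ ∀ v : HeightOneSpectrum (𝓞 L), v ≠ P → av v x = 0 := by
  have hP0 : P.asIdeal ∈ nonZeroDivisors (Ideal (𝓞 L)) := mem_nonZeroDivisors_of_ne_zero P.ne_bot
  set h := Fintype.card (ClassGroup (𝓞 L)) with hh
  have hpos : h ≠ 0 := Fintype.card_ne_zero
  have h1 : (ClassGroup.mk0 (⟨P.asIdeal, hP0⟩ : nonZeroDivisors (Ideal (𝓞 L)))) ^ h = 1 :=
    pow_card_eq_one
  rw [← map_pow, ClassGroup.mk0_eq_one_iff] at h1
  obtain ⟨a, ha⟩ := h1
  have ha' : P.asIdeal ^ h = Ideal.span {a} := ha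
  have ha0 : a ≠ 0 := by
    rintro rfl
    rw [Ideal.span_singleton_eq_bot.2 rfl] at ha'
    exact P.ne_bot (pow_eq_zero_iff hpos |>.1 ha')
  have haL : (algebraMap (𝓞 L) L a) ≠ 0 := by
    intro h0
    exact ha0 ((FaithfulSMul.algebraMap_injective (𝓞 L) L) (by rw [h0, map_zero]))
  refine ⟨Additive.ofMul (Units.mk0 _ haL), ?_, ?_⟩
  · rw [Ne, av_eq_zero_iff]
    change ¬ P.valuation L (algebraMap (𝓞 L) L a) = 1
    rw [P.valuation_eq_one_iff_notMem, not_not]
    have h2 : a ∈ P.asIdeal ^ h := by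
      rw [ha']
      exact Ideal.mem_span_singleton_self a
    exact Ideal.pow_le_self hpos h2
  · intro v hv
    rw [av_eq_zero_iff]
    change v.valuation L (algebraMap (𝓞 L) L a) = 1
    rw [v.valuation_eq_one_iff_notMem]
    intro hav
    have h2 : P.asIdeal ^ h ≤ v.asIdeal := by
      rw [ha', Ideal.span_singleton_le_iff_mem]
      exact hav
    have h3 : P.asIdeal ≤ v.asIdeal := Ideal.IsPrime.le_of_pow_le h2
    apply hv
    have h4 : P.asIdeal = v.asIdeal := P.isMaximal.eq_of_le v.isPrime.ne_top h3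
    exact (HeightOneSpectrum.ext h4).symm

end

theorem UN1 : S_UN1 := by
  intro L _ _ T
  let φ : Additive Lˣ →+ (T → ℤ) := Pi.addMonoidHom fun t => av t.1
  have hφ : ∀ x t, φ x t = av t.1 x := fun _ _ => rfl
  let U : AddSubgroup (Additive Lˣ) :=
    { carrier := {x | ∀ 𝔓 : HeightOneSpectrum (𝓞 L), 𝔓 ∉ T → av 𝔓 x = 0}
      zero_mem' := fun 𝔓 _ => map_zero _
      add_mem' := fun {x y} hx hy 𝔓 h => by rw [map_add, hx 𝔓 h, hy 𝔓 h, add_zero]
      neg_mem' := fun {x} hx 𝔓 h => by rw [map_neg, hx 𝔓 h, neg_zero] }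
  have hU : ∀ x, x ∈ U ↔ ∀ 𝔓 : HeightOneSpectrum (𝓞 L), 𝔓 ∉ T → av 𝔓 x = 0 := fun _ => Iff.rfl
  let Λ : Submodule ℤ (T → ℤ) := AddSubgroup.toIntSubmodule (U.map φ)
  have hΛ : ∀ l, l ∈ Λ ↔ ∃ x ∈ U, φ x = l := fun l => by
    change l ∈ U.map φ ↔ _
    rw [AddSubgroup.mem_map]
  choose a ha1 ha2 using fun t : T => exists_gen t.1
  have haU : ∀ t, a t ∈ U := fun t => (hU _).2 fun 𝔓 h => ha2 t 𝔓 (fun h' => h (h' ▸ t.2))
  obtain ⟨n, bs⟩ := Submodule.basisOfPid (Pi.basisFun ℤ T) Λ
  let D : T → Λ := fun t => ⟨φ (a t), (hΛ _).2 ⟨a t, haU t, rfl⟩⟩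
  have hli : LinearIndependent ℤ D := by
    rw [Fintype.linearIndependent_iff]
    intro g hg t
    have h1 : (∑ s, g s • φ (a s)) t = 0 := by
      have := congrArg (fun l : Λ => (l : T → ℤ)) hg
      simp only [Submodule.coe_sum, Submodule.coe_smul, D] at this
      rw [this]
      rfl
    rw [Finset.sum_apply, Finset.sum_eq_single t] at h1
    · rw [Pi.smul_apply, hφ, smul_eq_mul] at h1
      exact (mul_eq_zero.1 h1).resolve_right (ha1 t)
    · intro s _ hs
      rw [Pi.smul_apply, hφ, ha2 s t.1 (fun h => hs (Subtype.ext h.symm)), smul_zero]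
    · intro h
      exact absurd (Finset.mem_univ t) h
  have hn : T.card ≤ n := by
    haveI : Module.Finite ℤ Λ := Module.Finite.of_basis bs
    have h1 := hli.fintype_card_le_finrank
    rw [Module.finrank_eq_card_basis bs, Fintype.card_fin, Fintype.card_coe] at h1
    exact h1
  choose x hxU hx using fun i : Fin n => (hΛ _).1 (bs i).2
  let p : Finset (Fin n) → Additive Lˣ := fun I => ∑ i ∈ I, x i
  have hpU : ∀ I, p I ∈ U := fun I => U.sum_mem fun i _ => hxU i
  have hpφ : ∀ I, φ (p I) = ∑ i ∈ I, (bs i : T → ℤ) := fun I => by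
    simp only [p, map_sum, hx]
  have key : ∀ I I', IsSquare ((((p I).toMul : Lˣ) : L) * (((p I').toMul : Lˣ) : L)) → I = I' := by
    rintro I I' ⟨z, hz⟩
    have hz0 : z ≠ 0 := by
      rintro rfl
      rw [zero_mul] at hz
      exact (mul_ne_zero (Units.ne_zero _) (Units.ne_zero _)) hz
    set zu : Additive Lˣ := Additive.ofMul (Units.mk0 z hz0) with hzu
    have h1 : p I + p I' = zu + zu := by
      apply Additive.toMul.injective
      apply Units.ext
      rw [toMul_add, toMul_add, Units.val_mul, Units.val_mul, hz]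
      rfl
    have h2 : zu ∈ U := by
      rw [hU]
      intro 𝔓 h𝔓
      have h3 := congrArg (av 𝔓) h1
      rw [map_add, map_add, (hU _).1 (hpU I) 𝔓 h𝔓, (hU _).1 (hpU I') 𝔓 h𝔓] at h3
      omega
    set l : Λ := ⟨φ zu, (hΛ _).2 ⟨zu, h2, rfl⟩⟩ with hl
    have h4 : (∑ i ∈ I, bs i) + (∑ i ∈ I', bs i) = l + l := by
      apply Subtype.ext
      have h5 := congrArg φ h1
      rw [map_add, map_add, hpφ, hpφ] at h5
      simp only [Submodule.coe_add, Submodule.coe_sum]
      exact h5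
    have h6 : ∀ J : Finset (Fin n), ∀ i, bs.repr (∑ j ∈ J, bs j) i = if i ∈ J then 1 else 0 := by
      intro J i
      rw [map_sum, Finsupp.finset_sum_apply]
      simp only [Module.Basis.repr_self, Finsupp.single_apply]
      rw [Finset.sum_ite_eq']
    ext i
    have h7 := congrArg (fun l => bs.repr l i) h4
    simp only [map_add, Finsupp.add_apply, h6] at h7
    by_cases hi : i ∈ I <;> by_cases hi' : i ∈ I' <;> simp only [hi, hi', if_true, if_false] at h7 ⊢
    · exfalso; omega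
    · exfalso; omega
  have hinj : Function.Injective fun I => (((p I).toMul : Lˣ) : L) := by
    intro I I' h
    apply key
    simp only at h
    rw [h]
    exact ⟨_, rfl⟩
  have hcard : 2 ^ T.card ≤ (Finset.univ.image fun I => (((p I).toMul : Lˣ) : L)).card := by
    rw [Finset.card_image_of_injective _ hinj, Finset.card_univ, Fintype.card_finset,
      Fintype.card_fin]
    exact Nat.pow_le_pow_right (by norm_num) hn
  obtain ⟨X, hX, hXc⟩ := Finset.exists_subset_card_eq hcard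
  refine ⟨X, hXc, ?_, ?_⟩
  · intro y hy
    obtain ⟨I, _, rfl⟩ := Finset.mem_image.1 (hX hy)
    refine ⟨Units.ne_zero _, fun 𝔓 h => ?_⟩
    rw [← av_eq_zero_iff]
    exact (hU _).1 (hpU I) 𝔓 h
  · intro y hy y' hy' hne hsq
    obtain ⟨I, _, rfl⟩ := Finset.mem_image.1 (hX hy)
    obtain ⟨I', _, rfl⟩ := Finset.mem_image.1 (hX hy')
    exact hne (by rw [key I I' hsq])

end Pool.Agent.Run7.h382.SR
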