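import Pool.Agent.Run7.h382.SR.PAT

/-!
Piece CAND (one step of the construction) of helper245's project SR.
-/

set_option autoImplicit false
set_option linter.all false

open scoped Classical

namespace Pool.Agent.Run7.h382.SR

open Pool.Agent.Run7.h245.SR

section Pig

variable {ι : Type} [Fintype ι]

/-- first components -/
def fstH (Λ : AddSubgroup (ι → ZMod 2 × ZMod 2)) : Λ →+ (ι → ZMod 2) where
  toFun l i := (l.1 i).1
  map_zero' := rfl
  map_add' _ _ := rfl

theorem card_quot (Λ : AddSubgroup (ι → ZMod 2 × ZMod 2)) (c a : ℕ)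
    (hsize : 2 ^ Fintype.card ι ≤ 2 ^ c * Nat.card Λ)
    (hdim : Nat.card {l : Λ // ∀ i, (l.1 i).1 = 0} ≤ 2 ^ a) :
    Nat.card ((ι → ZMod 2) ⧸ (fstH Λ).range) ≤ 2 ^ (c + a) := by
  have h1 := AddSubgroup.card_eq_card_quotient_mul_card_addSubgroup (fstH Λ).range
  have h2 := AddSubgroup.card_eq_card_quotient_mul_card_addSubgroup (fstH Λ).ker
  have h3 : Nat.card (Λ ⧸ (fstH Λ).ker) = Nat.card (fstH Λ).range :=
    Nat.card_congr (QuotientAddGroup.quotientKerEquivRange (fstH Λ)).toEquiv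
  have h4 : Nat.card (fstH Λ).ker ≤ 2 ^ a := by
    refine le_trans (le_of_eq ?_) hdim
    refine Nat.card_congr (Equiv.subtypeEquivRight fun l => ?_)
    rw [AddMonoidHom.mem_ker]
    constructor
    · intro h i
      exact congrFun h i
    · intro h
      funext i
      exact h i
  have h5 : Nat.card (ι → ZMod 2) = 2 ^ Fintype.card ι := by
    simp [Nat.card_eq_fintype_card]
  have h6 : 0 < Nat.card (fstH Λ).range := Nat.card_pos
  rw [h5] at h1
  rw [h3] at h2
  rw [h1, h2] at hsize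
  have h7 : Nat.card ((ι → ZMod 2) ⧸ (fstH Λ).range) * Nat.card (fstH Λ).range ≤
      2 ^ (c + a) * Nat.card (fstH Λ).range := by
    refine hsize.trans ?_
    rw [pow_add]
    calc 2 ^ c * (Nat.card (fstH Λ).range * Nat.card (fstH Λ).ker)
        ≤ 2 ^ c * (Nat.card (fstH Λ).range * 2 ^ a) := by gcongr
      _ = _ := by ring
  exact Nat.le_of_mul_le_mul_right h7 h6

theorem pigeon {α β : Type*} [Fintype β] (s : Finset α) (hs : s.Nonempty) (f : α → β) (N : ℕ)
    (hN : Fintype.card β ≤ N) : ∃ y, s.card ≤ N * (s.filter fun x => f x = y).card := by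
  by_contra h
  push Not at h
  obtain ⟨x, hx⟩ := hs
  haveI : Nonempty β := ⟨f x⟩
  have h1 : s.card = ∑ y : β, (s.filter fun x => f x = y).card :=
    Finset.card_eq_sum_card_fiberwise fun _ _ => Finset.mem_coe.2 (Finset.mem_univ _)
  have h2 : ∑ y : β, N * (s.filter fun x => f x = y).card < ∑ _y : β, s.card :=
    Finset.sum_lt_sum_of_nonempty Finset.univ_nonempty fun y _ => h y
  rw [← Finset.mul_sum, ← h1, Finset.sum_const, Finset.card_univ, smul_eq_mul] at h2
  have := Nat.mul_le_mul_right s.card hN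
  omega

theorem pig (Λ : AddSubgroup (ι → ZMod 2 × ZMod 2)) (c a : ℕ)
    (hsize : 2 ^ Fintype.card ι ≤ 2 ^ c * Nat.card Λ)
    (hdim : Nat.card {l : Λ // ∀ i, (l.1 i).1 = 0} ≤ 2 ^ a) (A J' : Finset ι)
    (hA : A.Nonempty) : ∃ (q₀ : ι) (Q : Finset ι) (α : ι → ι → ZMod 2 × ZMod 2), q₀ ∈ A ∧ Q ⊆ A ∧
      A.card ≤ 2 ^ (c + a + J'.card) * Q.card ∧ (∀ q ∈ Q, α q ∈ Λ) ∧
      (∀ q ∈ Q, ∀ i, (α q i).1 = (if i = q then 1 else 0) + (if i = q₀ then 1 else 0)) ∧
      (∀ q ∈ Q, ∀ q' ∈ Q, ∀ i ∈ J', (α q i).2 = (α q' i).2) := by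
  have hc := card_quot Λ c a hsize hdim
  haveI : Fintype ((ι → ZMod 2) ⧸ (fstH Λ).range) := Fintype.ofFinite _
  rw [Nat.card_eq_fintype_card] at hc
  obtain ⟨y, hy⟩ := pigeon A hA
    (fun q => (QuotientAddGroup.mk (Pi.single q (1 : ZMod 2)) : (ι → ZMod 2) ⧸ (fstH Λ).range)) _ hc
  set B := A.filter fun q =>
    (QuotientAddGroup.mk (Pi.single q (1 : ZMod 2)) : (ι → ZMod 2) ⧸ (fstH Λ).range) = y with hB
  replace hy : A.card ≤ 2 ^ (c + a) * B.card := by
    rw [hB]
    convert hy using 3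
    ext q
    simp only [Finset.mem_filter]
  have hBne : B.Nonempty := by
    rw [Finset.nonempty_iff_ne_empty]
    intro h
    rw [h, Finset.card_empty, mul_zero, Nat.le_zero, Finset.card_eq_zero] at hy
    exact hA.ne_empty hy
  obtain ⟨q₀, hq₀⟩ := hBne
  have hex : ∀ q : ι, ∃ l : ι → ZMod 2 × ZMod 2, q ∈ B → l ∈ Λ ∧
      ∀ i, (l i).1 = (if i = q then 1 else 0) + (if i = q₀ then 1 else 0) := by
    intro q
    by_cases hq : q ∈ B
    · have h1 := (Finset.mem_filter.1 hq).2
      have h2 := (Finset.mem_filter.1 hq₀).2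
      rw [← h2] at h1
      rw [QuotientAddGroup.eq] at h1
      obtain ⟨l, hl⟩ := h1
      refine ⟨l.1, fun _ => ⟨l.2, fun i => ?_⟩⟩
      have h3 := congrFun hl i
      change (l.1 i).1 = _ at h3
      rw [h3, Pi.add_apply, Pi.neg_apply, Pi.single_apply, Pi.single_apply]
      by_cases e1 : i = q <;> by_cases e2 : i = q₀ <;> simp [e1, e2]
    · exact ⟨0, fun h => absurd h hq⟩
  choose α hα using hex
  obtain ⟨z, hz⟩ := pigeon B ⟨q₀, hq₀⟩ (fun q => fun i : J' => (α q i.1).2) (2 ^ J'.card) (by simp)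
  refine ⟨q₀, B.filter fun q => (fun i : J' => (α q i.1).2) = z, α, (Finset.mem_filter.1 hq₀).1,
    ?_, ?_, ?_, ?_, ?_⟩
  · intro q hq
    exact (Finset.mem_filter.1 (Finset.mem_filter.1 hq).1).1
  · refine hy.trans ?_
    rw [pow_add _ (c + a), mul_assoc]
    refine Nat.mul_le_mul_left _ ?_
    convert hz using 3
    ext q
    simp only [Finset.mem_filter]
  · intro q hq
    exact (hα q (Finset.mem_filter.1 hq).1).1
  · intro q hq
    exact (hα q (Finset.mem_filter.1 hq).1).2
  · intro q hq q' hq' i hi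
    have h1 := (Finset.mem_filter.1 hq).2
    have h2 := (Finset.mem_filter.1 hq').2
    rw [← h2] at h1
    exact congrFun h1 ⟨i, hi⟩

theorem sum2 (q q' : ι) (f : ι → ZMod 2) :
    ∑ i, ((if i = q then 1 else 0) + (if i = q' then 1 else 0)) * f i = f q + f q' := by
  simp [add_mul, Finset.sum_add_distrib]

theorem z2 (x : ZMod 2) : x + x = 0 := by
  rcases zmod2 x with h | h <;> rw [h] <;> decide

/-- first component of the sum of two of the `α`'s -/
theorem fst_add {q q' q₀ : ι} {x y : ι → ZMod 2 × ZMod 2}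
    (hx : ∀ i, (x i).1 = (if i = q then 1 else 0) + (if i = q₀ then 1 else 0))
    (hy : ∀ i, (y i).1 = (if i = q' then 1 else 0) + (if i = q₀ then 1 else 0)) (i : ι) :
    ((x + y) i).1 = (if i = q then 1 else 0) + (if i = q' then 1 else 0) := by
  rw [Pi.add_apply, Prod.fst_add, hx, hy]
  have := z2 (if i = q₀ then (1 : ZMod 2) else 0)
  linear_combination this

/-- the case of two indices -/
theorem two_case {Λ : AddSubgroup (ι → ZMod 2 × ZMod 2)}
    (iso : ∀ l ∈ Λ, ∑ i, (l i).1 * (l i).2 = 0) {q q' : ι} (hne : q ≠ q')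
    {w : ι → ZMod 2 × ZMod 2} (hw : w ∈ Λ)
    (h1 : ∀ i, (w i).1 = (if i = q then 1 else 0) + (if i = q' then 1 else 0))
    (h0 : (w q).2 = 0) {J U : Finset ι} (hJ : ∀ i ∈ J, (w i).2 = 0)
    (hqU : q ∉ U) (hqU' : q' ∉ U) {P : ι → Prop} (hP : P q) (hP' : P q') :
    ∃ (T : Finset ι) (w : ι → ZMod 2 × ZMod 2), w ∈ Λ ∧ T.card ≤ 4 ∧ Disjoint T U ∧
      (∀ i ∈ T, P i) ∧
      (∀ i ∉ T, (w i).1 = 0) ∧ (∃ i ∈ T, (w i).1 ≠ 0) ∧ ∀ i ∈ J ∪ T, (w i).2 = 0 := by
  have h2 : (w q').2 = 0 := by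
    have h3 := iso w hw
    simp only [h1] at h3
    rw [sum2, h0, zero_add] at h3
    exact h3
  refine ⟨{q, q'}, w, hw, ?_, ?_, ?_, ?_, ?_, ?_⟩
  · have := Finset.card_le_two (a := q) (b := q')
    omega
  · rw [Finset.disjoint_left]
    intro i hi
    rcases Finset.mem_insert.1 hi with h | h
    · rw [h]; exact hqU
    · rw [Finset.mem_singleton.1 h]; exact hqU'
  · intro i hi
    rcases Finset.mem_insert.1 hi with h | h
    · rw [h]; exact hP
    · rw [Finset.mem_singleton.1 h]; exact hP'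
  · intro i hi
    rw [Finset.mem_insert, Finset.mem_singleton, not_or] at hi
    rw [h1, if_neg hi.1, if_neg hi.2, add_zero]
  · refine ⟨q, Finset.mem_insert_self _ _, ?_⟩
    rw [h1, if_pos rfl, if_neg hne, add_zero]
    exact one_ne_zero
  · intro i hi
    rcases Finset.mem_union.1 hi with h | h
    · exact hJ i h
    · rcases Finset.mem_insert.1 h with h | h
      · rw [h]; exact h0
      · rw [Finset.mem_singleton.1 h]; exact h2

theorem polar {Λ : AddSubgroup (ι → ZMod 2 × ZMod 2)}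
    (iso : ∀ l ∈ Λ, ∑ i, (l i).1 * (l i).2 = 0) {l m : ι → ZMod 2 × ZMod 2} (hl : l ∈ Λ)
    (hm : m ∈ Λ) : ∑ i, (l i).1 * (m i).2 + ∑ i, (m i).1 * (l i).2 = 0 := by
  have h1 := iso _ (Λ.add_mem hl hm)
  have h2 := iso l hl
  have h3 := iso m hm
  simp only [Pi.add_apply, Prod.fst_add, Prod.snd_add, add_mul, mul_add,
    Finset.sum_add_distrib] at h1
  linear_combination h1 - h2 - h3

end Pig

theorem exists_n (δ : ℝ) (hδ : 0 < δ) : ∃ n : ℕ, 1 ≤ n ∧ ((n : ℝ) + 1) * (1 / 2) ^ (n - 1) < δ := by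
  have h1 := tendsto_self_mul_const_pow_of_abs_lt_one (r := (1 / 2 : ℝ))
    (by rw [abs_of_pos] <;> norm_num)
  have h2 := (h1.comp (Filter.tendsto_add_atTop_nat 2)).eventually (gt_mem_nhds
    (show (0 : ℝ) < δ / 4 by positivity))
  obtain ⟨m, hm⟩ := h2.exists
  refine ⟨m + 1, by omega, ?_⟩
  simp only [Function.comp_apply] at hm
  rw [Nat.add_sub_cancel]
  push_cast at hm ⊢
  rw [pow_add] at hm
  linarith

theorem cand (hPAT : S_PAT) : S_CAND := by
  intro c a jmax u ρ hρ
  set M : ℝ := 2 ^ (c + a + jmax + 1) with hM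
  have hM0 : 0 < M := by positivity
  set δ : ℝ := ρ / (2 * M) with hδ
  have hδ0 : 0 < δ := by positivity
  obtain ⟨n, hn1, hn⟩ := exists_n (δ / 2) (by positivity)
  refine ⟨δ / (4 * (n + 1)), ⌈(2 * u + 2 * M * (n + 2)) / ρ⌉₊ + 1, by positivity, ?_⟩
  intro ι _ Λ lev K ε hε hε0 hLev hdim k V J U hk hV hJ hJc hUc hdens
  -- the sets `A k'`
  have hLc : ∀ k', k' < K → 2 * (u : ℝ) + 2 * M * (n + 2) <
      ρ * (Finset.univ.filter fun i => lev i = k').card := by
    intro k' hk'
    have h1 := hLev.big k' hk'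
    have h2 : (2 * u + 2 * M * (n + 2)) / ρ + 1 ≤ (Finset.univ.filter fun i => lev i = k').card := by
      refine le_trans ?_ (Nat.cast_le.2 h1)
      push_cast
      have := Nat.le_ceil ((2 * u + 2 * M * (n + 2)) / ρ)
      linarith
    have h3 : (2 * u + 2 * M * (n + 2)) / ρ < (Finset.univ.filter fun i => lev i = k').card := by
      linarith
    rw [div_lt_iff₀ hρ] at h3
    linarith
  let A : ℕ → Finset ι := fun k' =>
    (Finset.univ.filter fun i => lev i = k' ∧ ∀ v ∈ V, (v i).2 = 0) \ U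
  have hAc : ∀ k', k' = k ∨ k' = k + 1 →
      ρ * (Finset.univ.filter fun i => lev i = k').card - u ≤ ((A k').card : ℝ) := by
    intro k' hk'
    have h1 := hdens k' hk'
    have h2 : ((Finset.univ.filter fun i => lev i = k' ∧ ∀ v ∈ V, (v i).2 = 0).card : ℝ) ≤
        (A k').card + U.card := by
      have := Finset.card_le_card_sdiff_add_card
        (s := (Finset.univ.filter fun i => lev i = k' ∧ ∀ v ∈ V, (v i).2 = 0)) (t := U)
      exact_mod_cast this
    have h3 : (U.card : ℝ) ≤ u := by exact_mod_cast hUc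
    linarith
  have hAmem : ∀ k' i, i ∈ A k' → lev i = k' ∧ (∀ v ∈ V, (v i).2 = 0) ∧ i ∉ U := by
    intro k' i hi
    rw [Finset.mem_sdiff, Finset.mem_filter] at hi
    exact ⟨hi.1.2.1, hi.1.2.2, hi.2⟩
  have hu0 : (0 : ℝ) ≤ u := by positivity
  have hn0 : (0 : ℝ) ≤ n := by positivity
  have hMn : 0 < M * (n + 2) := by positivity
  have hA1 : M * (n + 2) ≤ ((A k).card : ℝ) := by
    have := hLc k (by omega)
    have := hAc k (Or.inl rfl)
    linarith
  have hA2 : ρ * (Finset.univ.filter fun i => lev i = k + 1).card / 2 ≤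
      ((A (k + 1)).card : ℝ) := by
    have := hLc (k + 1) hk
    have := hAc (k + 1) (Or.inr rfl)
    linarith
  have hX0 : (0 : ℝ) < (Finset.univ.filter fun i => lev i = k + 1).card := by
    have := hLc (k + 1) hk
    by_contra hcon
    have h0 : ρ * ((Finset.univ.filter fun i => lev i = k + 1).card : ℝ) ≤ 0 :=
      mul_nonpos_of_nonneg_of_nonpos hρ.le (not_lt.1 hcon)
    linarith
  have hAne1 : (A k).Nonempty := by
    rw [← Finset.card_pos]
    have : (0 : ℝ) < (A k).card := by linarith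
    exact_mod_cast this
  have hAne2 : (A (k + 1)).Nonempty := by
    rw [← Finset.card_pos]
    have : (0 : ℝ) < (A (k + 1)).card := by
      have : 0 < ρ * (Finset.univ.filter fun i => lev i = k + 1).card / 2 := by positivity
      linarith
    exact_mod_cast this
  obtain ⟨q₀, Q, α, hq₀, hQA, hQc, hαΛ, hα1, hαJ⟩ := pig Λ c a hLev.size hdim (A k) J hAne1
  obtain ⟨r₀, R, γ, hr₀, hRA, hRc, hγΛ, hγ1, hγJ⟩ := pig Λ c a hLev.size hdim (A (k + 1))
    (insert q₀ J) hAne2
  have hQc' : (n : ℝ) + 2 ≤ Q.card := by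
    have h1 : ((A k).card : ℝ) ≤ 2 ^ (c + a + J.card) * Q.card := by exact_mod_cast hQc
    have h2 : (2 : ℝ) ^ (c + a + J.card) ≤ M := by
      rw [hM]
      exact pow_le_pow_right₀ (by norm_num) (by omega)
    have h3 : (2 : ℝ) ^ (c + a + J.card) * Q.card ≤ M * Q.card := by gcongr
    exact le_of_mul_le_mul_left (by linarith) hM0
  have hRc' : δ * (Finset.univ.filter fun i => lev i = k + 1).card ≤ R.card := by
    have h1 : ((A (k + 1)).card : ℝ) ≤ 2 ^ (c + a + (insert q₀ J).card) * R.card := by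
      exact_mod_cast hRc
    have h2 : (2 : ℝ) ^ (c + a + (insert q₀ J).card) ≤ M := by
      rw [hM]
      refine pow_le_pow_right₀ (by norm_num) ?_
      have := Finset.card_insert_le q₀ J
      omega
    have h3 : (2 : ℝ) ^ (c + a + (insert q₀ J).card) * R.card ≤ M * R.card := by gcongr
    have h4 : ρ * (Finset.univ.filter fun i => lev i = k + 1).card / 2 ≤ M * R.card := by linarith
    rw [hδ, div_mul_eq_mul_div, div_le_iff₀ (by positivity)]
    linarith
  -- the property of the indices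
  let P : ι → Prop := fun i => (lev i = k ∨ lev i = k + 1) ∧ ∀ v ∈ V, (v i).2 = 0
  have hPA : ∀ i ∈ A k, P i := fun i hi =>
    ⟨Or.inl (hAmem k i hi).1, (hAmem k i hi).2.1⟩
  have hPA' : ∀ i ∈ A (k + 1), P i := fun i hi =>
    ⟨Or.inr (hAmem _ i hi).1, (hAmem _ i hi).2.1⟩
  suffices hsuff : ∃ (T : Finset ι) (w : ι → ZMod 2 × ZMod 2), w ∈ Λ ∧ T.card ≤ 4 ∧
      Disjoint T U ∧ (∀ i ∈ T, P i) ∧
      (∀ i ∉ T, (w i).1 = 0) ∧ (∃ i ∈ T, (w i).1 ≠ 0) ∧ ∀ i ∈ J ∪ T, (w i).2 = 0 by
    obtain ⟨T, w, h1, h2, h3, h4, h5, h6, h7⟩ := hsuff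
    exact ⟨T, w, h1, h2, h3, fun i hi => (h4 i hi).1, fun i hi => (h4 i hi).2, h5, h6, h7⟩
  have hiso := hLev.iso
  by_cases hQcase : ∃ q ∈ Q, ∃ q' ∈ Q, q ≠ q' ∧ ((α q + α q') q).2 = 0
  · obtain ⟨q, hq, q', hq', hne, h0⟩ := hQcase
    refine two_case hiso hne (Λ.add_mem (hαΛ q hq) (hαΛ q' hq'))
      (fst_add (hα1 q hq) (hα1 q' hq')) h0 ?_ (hAmem k q (hQA hq)).2.2 (hAmem k q' (hQA hq')).2.2
      (hPA q (hQA hq)) (hPA q' (hQA hq'))
    intro i hi
    rw [Pi.add_apply, Prod.snd_add, hαJ q hq q' hq' i hi]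
    exact z2 _
  by_cases hRcase : ∃ q ∈ R, ∃ q' ∈ R, q ≠ q' ∧ ((γ q + γ q') q).2 = 0
  · obtain ⟨q, hq, q', hq', hne, h0⟩ := hRcase
    refine two_case hiso hne (Λ.add_mem (hγΛ q hq) (hγΛ q' hq'))
      (fst_add (hγ1 q hq) (hγ1 q' hq')) h0 ?_ (hAmem _ q (hRA hq)).2.2
      (hAmem _ q' (hRA hq')).2.2
      (hPA' q (hRA hq)) (hPA' q' (hRA hq'))
    intro i hi
    rw [Pi.add_apply, Prod.snd_add, hγJ q hq q' hq' i (Finset.mem_insert_of_mem hi)]
    exact z2 _
  push Not at hQcase hRcase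
  -- `n` elements of `Q`
  have hQn : n ≤ (Q.erase q₀).card := by
    have h1 : n + 2 ≤ Q.card := by exact_mod_cast hQc'
    have h2 := Finset.pred_card_le_card_erase (s := Q) (a := q₀)
    omega
  obtain ⟨s, hs, hsc⟩ := Finset.exists_subset_card_eq hQn
  let e : Fin n ≃ s := (s.equivFinOfCardEq hsc).symm
  let q : Fin n → ι := fun j => (e j).1
  have hqQ : ∀ j, q j ∈ Q := fun j => Finset.mem_of_mem_erase (hs (e j).2)
  have hqne : ∀ j, q j ≠ q₀ := fun j => Finset.ne_of_mem_erase (hs (e j).2)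
  have hqinj : Function.Injective q := fun i j h => e.injective (Subtype.ext h)
  have hqlev : ∀ j, lev (q j) = k := fun j => (hAmem k _ (hQA (hqQ j))).1
  have hq₀lev : lev q₀ = k := (hAmem k _ hq₀).1
  -- the pattern
  have hXcard : (Fintype.card {i : ι // lev i = k + 1} : ℝ) =
      (Finset.univ.filter fun i => lev i = k + 1).card := by
    rw [Fintype.card_subtype]
  obtain ⟨i, j, r, hr, r', hr', p1, p2, p3, p4⟩ := hPAT n {i : ι // lev i = k + 1}
    (fun j x => (α (q j) x.1).2) (Finset.univ.filter fun x => x.1 ∈ R) ε hn1 hε.le (by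
      intro t ht
      rw [hXcard]
      have hmem : ∑ j ∈ t, α (q j) ∈ Λ := Λ.sum_mem fun j _ => hαΛ _ (hqQ j)
      have hfst : ∀ i, ((∑ j ∈ t, α (q j)) i).1 =
          ∑ j ∈ t, ((if i = q j then 1 else 0) + (if i = q₀ then 1 else 0)) := by
        intro i
        rw [Finset.sum_apply, Prod.fst_sum]
        exact Finset.sum_congr rfl fun j _ => hα1 _ (hqQ j) i
      have hsnd : ∀ i, ((∑ j ∈ t, α (q j)) i).2 = ∑ j ∈ t, (α (q j) i).2 := by
        intro i
        rw [Finset.sum_apply, Prod.snd_sum]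
      have h1 := hLev.pr (k + 1) hk (∑ j ∈ t, α (q j)) hmem ?_ ?_
      · refine le_trans (le_of_eq ?_) h1
        norm_cast
        refine Finset.card_bij (fun x _ => x.1) ?_ ?_ ?_
        · intro x hx
          simp only [Finset.mem_filter, Finset.mem_univ, true_and] at hx ⊢
          exact ⟨x.2, by rw [hsnd]; exact hx⟩
        · intro x _ y _ h
          exact Subtype.ext h
        · intro y hy
          simp only [Finset.mem_filter, Finset.mem_univ, true_and] at hy
          refine ⟨⟨y, hy.1⟩, ?_, rfl⟩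
          simp only [Finset.mem_filter, Finset.mem_univ, true_and]
          rw [← hsnd]
          exact hy.2
      · intro h0
        obtain ⟨j₀, hj₀⟩ := ht
        have h2 := hfst (q j₀)
        rw [h0, Finset.sum_add_distrib] at h2
        simp only [hqinj.eq_iff, if_neg (hqne j₀), Finset.sum_const_zero, add_zero] at h2
        rw [Finset.sum_ite_eq, if_pos hj₀] at h2
        exact zero_ne_one h2
      · intro i hi
        rw [hfst]
        refine Finset.sum_eq_zero fun j _ => ?_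
        rw [if_neg, if_neg, add_zero]
        · rintro rfl
          omega
        · intro h
          rw [h, hqlev] at hi
          omega) (by
      rw [hXcard]
      have h1 : ((Finset.univ.filter fun x : {i : ι // lev i = k + 1} => x.1 ∈ R).card : ℝ) =
          R.card := by
        norm_cast
        refine Finset.card_bij (fun x _ => x.1) ?_ ?_ ?_
        · intro x hx
          simp only [Finset.mem_filter, Finset.mem_univ, true_and] at hx
          exact hx
        · intro x _ y _ h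
          exact Subtype.ext h
        · intro y hy
          refine ⟨⟨y, (hAmem _ y (hRA hy)).1⟩, ?_, rfl⟩
          simp only [Finset.mem_filter, Finset.mem_univ, true_and]
          exact hy
      rw [h1]
      refine lt_of_lt_of_le ?_ hRc'
      refine mul_lt_mul_of_pos_right ?_ hX0
      have h2 : ((n : ℝ) + 1) * (2 * ε) ≤ δ / 2 := by
        have h3 : (0 : ℝ) < 4 * (n + 1) := by positivity
        rw [le_div_iff₀ h3] at hε0
        linarith
      linarith)
  rw [Finset.mem_filter] at hr hr'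
  set x := q i with hx
  set y := q j with hy
  have hxQ := hqQ i
  have hyQ := hqQ j
  rw [← hx] at hxQ
  rw [← hy] at hyQ
  change (α x r.1).2 = 0 at p1
  change (α y r.1).2 = 1 at p2
  change (α x r'.1).2 = 1 at p3
  change (α y r'.1).2 = 0 at p4
  obtain ⟨r, hrlev⟩ := r
  obtain ⟨r', hrlev'⟩ := r'
  simp only at p1 p2 p3 p4 hr hr'
  have hxy : x ≠ y := by
    intro h
    rw [h, p2] at p1
    exact one_ne_zero p1
  have hrr : r ≠ r' := by
    intro h
    rw [h, p3] at p1
    exact one_ne_zero p1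
  have hxlev : lev x = k := hqlev i
  have hylev : lev y = k := hqlev j
  -- `m = γ r + γ r'`
  have hmΛ : γ r + γ r' ∈ Λ := Λ.add_mem (hγΛ r hr.2) (hγΛ r' hr'.2)
  have hm1 := fst_add (hγ1 r hr.2) (hγ1 r' hr'.2)
  have hmJ : ∀ i ∈ insert q₀ J, ((γ r + γ r') i).2 = 0 := by
    intro i hi
    rw [Pi.add_apply, Prod.snd_add, hγJ r hr.2 r' hr'.2 i hi]
    exact z2 _
  have hmx : ((γ r + γ r') x).2 = 1 := by
    have h1 := polar hiso (hαΛ x hxQ) hmΛ
    simp only [hα1 x hxQ, hm1] at h1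
    rw [sum2, sum2, hmJ q₀ (Finset.mem_insert_self _ _), p1, p3] at h1
    rcases zmod2 ((γ r + γ r') x).2 with h | h
    · rw [h] at h1
      exact absurd h1 (by decide)
    · exact h
  have hmy : ((γ r + γ r') y).2 = 1 := by
    have h1 := polar hiso (hαΛ y hyQ) hmΛ
    simp only [hα1 y hyQ, hm1] at h1
    rw [sum2, sum2, hmJ q₀ (Finset.mem_insert_self _ _), p2, p4] at h1
    rcases zmod2 ((γ r + γ r') y).2 with h | h
    · rw [h] at h1
      exact absurd h1 (by decide)
    · exact h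
  have hl1 := fst_add (hα1 x hxQ) (hα1 y hyQ)
  have hlx : ((α x + α y) x).2 = 1 := (zmod2 _).resolve_left (hQcase x hxQ y hyQ hxy)
  have hly : ((α x + α y) y).2 = 1 := by
    have h1 := (zmod2 _).resolve_left (hQcase y hyQ x hxQ hxy.symm)
    rw [add_comm] at h1
    exact h1
  have hgr : ((γ r + γ r') r).2 = 1 := (zmod2 _).resolve_left (hRcase r hr.2 r' hr'.2 hrr)
  have hgr' : ((γ r + γ r') r').2 = 1 := by
    have h1 := (zmod2 _).resolve_left (hRcase r' hr'.2 r hr.2 hrr.symm)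
    rw [add_comm] at h1
    exact h1
  have hlr : ((α x + α y) r).2 = 1 := by
    rw [Pi.add_apply, Prod.snd_add, p1, p2, zero_add]
  have hlr' : ((α x + α y) r').2 = 1 := by
    rw [Pi.add_apply, Prod.snd_add, p3, p4, add_zero]
  have hxA := hQA hxQ
  have hyA := hQA hyQ
  have hrA := hRA hr.2
  have hrA' := hRA hr'.2
  have hxr : x ≠ r := by rintro h; rw [h] at hxlev; omega
  have hxr' : x ≠ r' := by rintro h; rw [h] at hxlev; omega
  refine ⟨{x, y, r, r'}, α x + α y + (γ r + γ r'),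
    Λ.add_mem (Λ.add_mem (hαΛ x hxQ) (hαΛ y hyQ)) hmΛ, ?_, ?_, ?_, ?_, ?_, ?_⟩
  · exact Finset.card_le_four
  · rw [Finset.disjoint_left]
    intro i hi
    simp only [Finset.mem_insert, Finset.mem_singleton] at hi
    rcases hi with rfl | rfl | rfl | rfl
    · exact (hAmem _ _ hxA).2.2
    · exact (hAmem _ _ hyA).2.2
    · exact (hAmem _ _ hrA).2.2
    · exact (hAmem _ _ hrA').2.2
  · intro i hi
    simp only [Finset.mem_insert, Finset.mem_singleton] at hi
    rcases hi with rfl | rfl | rfl | rfl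
    · exact hPA _ hxA
    · exact hPA _ hyA
    · exact hPA' _ hrA
    · exact hPA' _ hrA'
  · intro i hi
    simp only [Finset.mem_insert, Finset.mem_singleton, not_or] at hi
    rw [Pi.add_apply, Prod.fst_add, hl1, hm1, if_neg hi.1, if_neg hi.2.1, if_neg hi.2.2.1,
      if_neg hi.2.2.2]
    simp
  · refine ⟨x, Finset.mem_insert_self _ _, ?_⟩
    rw [Pi.add_apply, Prod.fst_add, hl1, hm1, if_pos rfl, if_neg hxy, if_neg hxr, if_neg hxr']
    simp
  · intro i hi
    rcases Finset.mem_union.1 hi with h | h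
    · rw [Pi.add_apply, Prod.snd_add, hmJ i (Finset.mem_insert_of_mem h), add_zero, Pi.add_apply,
        Prod.snd_add, hαJ x hxQ y hyQ i h]
      exact z2 _
    · simp only [Finset.mem_insert, Finset.mem_singleton] at h
      rcases h with h | h | h | h
      · rw [h, Pi.add_apply, Prod.snd_add, hlx, hmx]; decide
      · rw [h, Pi.add_apply, Prod.snd_add, hly, hmy]; decide
      · rw [h, Pi.add_apply, Prod.snd_add, hlr, hgr]; decide
      · rw [h, Pi.add_apply, Prod.snd_add, hlr', hgr']; decide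

theorem CAND : S_CAND := cand PAT

end Pool.Agent.Run7.h382.SR
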