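import Pool.Agent.Run7.h245.SR.Iface2

/-!
Piece M16 (invariants modulo 16 and signs) of helper245's project SR.
-/

set_option autoImplicit false
set_option linter.all false

open NumberField IsDedekindDomain
open scoped Classical

namespace Pool.Agent.Run7.h382.SR

open Pool.Agent.Run7.h245.SR

section

variable {L : Type} [Field L] [NumberField L]

theorem odd_notMem {𝔓 : HeightOneSpectrum (𝓞 L)} (h2 : (2 : 𝓞 L) ∈ 𝔓.asIdeal) {b : ℕ}
    (hb : Odd b) : (b : 𝓞 L) ∉ 𝔓.asIdeal := by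
  intro h
  obtain ⟨j, rfl⟩ := hb
  apply 𝔓.isPrime.ne_top
  rw [Ideal.eq_top_iff_one]
  have h1 : (2 : 𝓞 L) * (j : 𝓞 L) ∈ 𝔓.asIdeal := Ideal.mul_mem_right _ _ h2
  have h3 := Ideal.sub_mem _ h h1
  have h4 : (((2 * j + 1 : ℕ)) : 𝓞 L) - 2 * (j : 𝓞 L) = 1 := by push_cast; ring
  rwa [h4] at h3

theorem val_natCast (𝔓 : HeightOneSpectrum (𝓞 L)) (b : ℕ) :
    𝔓.valuation L (b : L) = 𝔓.valuation L (algebraMap (𝓞 L) L (b : 𝓞 L)) := by
  rw [map_natCast (algebraMap (𝓞 L) L)]

theorem val_odd {𝔓 : HeightOneSpectrum (𝓞 L)} (h2 : (2 : 𝓞 L) ∈ 𝔓.asIdeal) {b : ℕ}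
    (hb : Odd b) : 𝔓.valuation L (b : L) = 1 := by
  rw [val_natCast, 𝔓.valuation_eq_one_iff_notMem]
  exact odd_notMem h2 hb

theorem exists_ab (x : L) : ∃ (a : 𝓞 L) (b : ℕ), (∀ 𝔓 : HeightOneSpectrum (𝓞 L),
    (2 : 𝓞 L) ∈ 𝔓.asIdeal → 𝔓.valuation L x = 1) → Odd b ∧ x * b = (a : L) := by
  by_cases hx : ∀ 𝔓 : HeightOneSpectrum (𝓞 L), (2 : 𝓞 L) ∈ 𝔓.asIdeal → 𝔓.valuation L x = 1
  swap
  · exact ⟨0, 0, fun h => absurd h hx⟩
  have halg : IsAlgebraic ℤ x := (IsFractionRing.isAlgebraic_iff ℤ ℚ L).2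
    (Algebra.IsAlgebraic.isAlgebraic x)
  obtain ⟨m, hm0, hm⟩ := halg.exists_integral_multiple
  obtain ⟨k, b, hb, hkb⟩ := Nat.exists_eq_two_pow_mul_odd (Int.natAbs_ne_zero.2 hm0)
  have hint : IsIntegral ℤ ((m.natAbs : L) * x) := by
    rcases Int.natAbs_eq m with h | h
    · have h1 : ((m.natAbs : L) * x) = m • x := by
        rw [zsmul_eq_mul]
        conv_rhs => rw [h]
        rw [Int.cast_natCast]
      rw [h1]
      exact hm
    · have h1 : ((m.natAbs : L) * x) = -(m • x) := by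
        rw [zsmul_eq_mul]
        conv_rhs => rw [h]
        rw [Int.cast_neg, Int.cast_natCast]
        ring
      rw [h1]
      exact hm.neg
  obtain ⟨a, ha⟩ := HeightOneSpectrum.mem_integers_of_valuation_le_one (K := L) (x * b) (by
    intro v
    by_cases h2 : (2 : 𝓞 L) ∈ v.asIdeal
    · rw [map_mul, hx v h2, one_mul, val_natCast]
      exact v.valuation_le_one _
    · have h3 : v.valuation L (2 : L) = 1 := by
        have h4 := (v.valuation_eq_one_iff_notMem (K := L)).2 h2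
        rwa [map_ofNat] at h4
      have h5 : v.valuation L ((m.natAbs : L) * x) ≤ 1 := by
        have h6 : ((m.natAbs : L) * x) = algebraMap (𝓞 L) L ⟨(m.natAbs : L) * x, hint⟩ := rfl
        rw [h6]
        exact v.valuation_le_one _
      have h7 : ((m.natAbs : L) * x) = 2 ^ k * (x * b) := by
        rw [hkb]
        push_cast
        ring
      rw [h7, map_mul, map_pow, h3, one_pow, one_mul] at h5
      exact h5)
  exact ⟨a, b, fun _ => ⟨hb, ha.symm⟩⟩

theorem card_le (n : ℕ) (hn : Module.finrank ℚ L ≤ n) :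
    Finite ((𝓞 L ⧸ Ideal.span {(16 : 𝓞 L)}) × ((L →+* ℝ) → Bool)) ∧
    Nat.card ((𝓞 L ⧸ Ideal.span {(16 : 𝓞 L)}) × ((L →+* ℝ) → Bool)) ≤ 16 ^ n * 2 ^ n := by
  have h1 : Nat.card (𝓞 L ⧸ Ideal.span {(16 : 𝓞 L)}) = 16 ^ Module.finrank ℚ L := by
    have := Ideal.absNorm_span_natCast (S := 𝓞 L) 16
    rw [Ideal.absNorm_apply, Submodule.cardQuot_apply, RingOfIntegers.rank] at this
    exact_mod_cast this
  have h2 : Finite (𝓞 L ⧸ Ideal.span {(16 : 𝓞 L)}) := by
    apply Nat.finite_of_card_ne_zero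
    rw [h1]
    positivity
  have h3 : Fintype.card (L →+* ℝ) ≤ n := by
    refine le_trans ?_ hn
    rw [← NumberField.Embeddings.card L ℂ]
    refine Fintype.card_le_of_injective (fun ρ => Complex.ofRealHom.comp ρ) ?_
    intro ρ ρ' h
    ext x
    have := congrArg (fun f : L →+* ℂ => f x) h
    exact Complex.ofReal_injective this
  refine ⟨inferInstance, ?_⟩
  rw [Nat.card_prod, h1, Nat.card_eq_fintype_card, Fintype.card_fun, Fintype.card_bool]
  gcongr
  · norm_num
  · norm_num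

end

theorem M16 : S_M16 := by
  intro n
  refine ⟨16 ^ n * 2 ^ n, ?_⟩
  intro L _ _ hL
  choose a b hab using exists_ab (L := L)
  obtain ⟨hfin, hcard⟩ := card_le (L := L) n hL
  obtain ⟨e, he⟩ : ∃ e : ((𝓞 L ⧸ Ideal.span {(16 : 𝓞 L)}) × ((L →+* ℝ) → Bool)) →
      Fin (16 ^ n * 2 ^ n), Function.Injective e :=
    ⟨fun x => Fin.castLE hcard (Finite.equivFin _ x),
      fun x y h => (Finite.equivFin _).injective (Fin.castLE_injective hcard h)⟩
  refine ⟨fun x => e (Ideal.Quotient.mk _ (a x * b x), fun ρ => decide (0 < ρ x)), ?_⟩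
  intro x y hx0 hy0 hx hy hκ
  have h1 := he hκ
  rw [Prod.mk.injEq] at h1
  obtain ⟨h1, h2⟩ := h1
  obtain ⟨hbx, hax⟩ := hab x hx
  obtain ⟨hby, hay⟩ := hab y hy
  constructor
  · rw [eq_comm, Ideal.Quotient.eq, Ideal.mem_span_singleton'] at h1
    obtain ⟨c, hc⟩ := h1
    have hbx0 : (b x : L) ≠ 0 := by
      rw [Nat.cast_ne_zero]
      rintro h
      rw [h] at hbx
      exact absurd hbx (by decide)
    have hby0 : (b y : L) ≠ 0 := by
      rw [Nat.cast_ne_zero]
      rintro h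
      rw [h] at hby
      exact absurd hby (by decide)
    have hax0 : (a x : L) ≠ 0 := by
      rw [← hax]
      exact mul_ne_zero hx0 hbx0
    have hcL : (c : L) * 16 = (a y : L) * b y - (a x : L) * b x := by
      have := congrArg (algebraMap (𝓞 L) L) hc
      rw [map_mul, map_sub, map_mul, map_mul, map_natCast, map_natCast, map_ofNat] at this
      exact this
    have ex : x = (a x : L) / b x := by rw [← hax]; field_simp
    have ey : y = (a y : L) / b y := by rw [← hay]; field_simp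
    refine ⟨(a x : L) / b y, (c : L) / ((a x : L) * b x), div_ne_zero hax0 hby0, ?_, ?_⟩
    · have h3 : (1 + 16 * ((c : L) / ((a x : L) * b x))) = ((a y : L) * b y) / ((a x : L) * b x) := by
        field_simp
        linear_combination hcL
      rw [h3]
      conv_lhs => rw [ex, ey]
      field_simp
    · intro 𝔓 h𝔓
      have h4 : 𝔓.valuation L (a x : L) = 1 := by
        rw [← hax, map_mul, hx 𝔓 h𝔓, val_odd h𝔓 hbx, one_mul]
      rw [map_div₀, map_mul, h4, val_odd h𝔓 hbx, one_mul, div_one]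
      exact 𝔓.valuation_le_one _
  · intro ρ
    have h3 := congrFun h2 ρ
    simp only [decide_eq_decide] at h3
    rw [map_mul]
    have hx1 : ρ x ≠ 0 := (map_ne_zero ρ).2 hx0
    have hy1 : ρ y ≠ 0 := (map_ne_zero ρ).2 hy0
    rcases lt_or_gt_of_ne hx1 with h | h
    · rcases lt_or_gt_of_ne hy1 with h' | h'
      · exact mul_pos_of_neg_of_neg h h'
      · exact absurd (h3.2 h') (not_lt.2 h.le)
    · exact mul_pos h (h3.1 h)

end Pool.Agent.Run7.h382.SR
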