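import Pool.Agent.Run7.h245.SR.Iface1

/-!
Pieces PAT (patterns of vectors over the field with two elements) of helper245's project SR.
-/

set_option autoImplicit false
set_option linter.all false

open scoped Classical

namespace Pool.Agent.Run7.h382.SR

open Pool.Agent.Run7.h245.SR

theorem zmod2 (x : ZMod 2) : x = 0 ∨ x = 1 := by
  fin_cases x
  · left; rfl
  · right; rfl

theorem card_half {V : Type*} [AddCommGroup V] (E : Finset V)
    (hE : ∀ a ∈ E, ∀ b ∈ E, a + b ∈ E) (ℓ : V → ZMod 2) (hℓ : ∀ a b, ℓ (a + b) = ℓ a + ℓ b) :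
    (E.filter fun t => ¬ ℓ t = 0).card ≤ (E.filter fun t => ℓ t = 0).card := by
  by_cases h : ∃ t₁ ∈ E, ℓ t₁ = 1
  · obtain ⟨t₁, h1, h2⟩ := h
    refine Finset.card_le_card_of_injOn (fun t => t + t₁) ?_ ?_
    · intro t ht
      simp only [Finset.coe_filter, Set.mem_setOf_eq] at ht ⊢
      refine ⟨hE _ ht.1 _ h1, ?_⟩
      rw [hℓ, h2]
      rcases zmod2 (ℓ t) with h | h
      · exact absurd h ht.2
      · rw [h]; decide
    · intro a _ b _ hab
      exact add_right_cancel hab
  · have : (E.filter fun t => ¬ ℓ t = 0) = ∅ := by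
      rw [Finset.filter_eq_empty_iff]
      intro t ht h0
      exact h ⟨t, ht, (zmod2 _).resolve_left h0⟩
    rw [this]
    simp

theorem card_half' {V : Type*} [AddCommGroup V] (E : Finset V)
    (hE : ∀ a ∈ E, ∀ b ∈ E, a + b ∈ E) (ℓ : V → ZMod 2) (hℓ : ∀ a b, ℓ (a + b) = ℓ a + ℓ b) :
    E.card ≤ 2 * (E.filter fun t => ℓ t = 0).card := by
  have h1 := card_half E hE ℓ hℓ
  have h2 := Finset.card_filter_add_card_filter_not (s := E) (fun t => ℓ t = 0)
  omega

theorem sum_supp {n : ℕ} (t v : Fin n → ZMod 2) :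
    ∑ i, t i * v i = ∑ i with t i = 1, v i := by
  rw [Finset.sum_filter]
  refine Finset.sum_congr rfl fun i _ => ?_
  rcases zmod2 (t i) with h | h
  · rw [h]; simp
  · rw [h]; simp

theorem pat_bound (n : ℕ) (X : Type) [Fintype X] (u : Fin n → X → ZMod 2)
    (ε : ℝ) (hn : 1 ≤ n) (hε : 0 ≤ ε)
    (H : ∀ s : Finset (Fin n), s.Nonempty →
      ((Finset.univ.filter fun x => ∑ i ∈ s, u i x = 0).card : ℝ) ≤
        (1 / 2 + ε) * Fintype.card X) (p : Fin n → ZMod 2) :
    ((Finset.univ.filter fun x => ∀ i, u i x = p i).card : ℝ) ≤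
      ((1 / 2) ^ (n - 1) + 2 * ε) * Fintype.card X := by
  set E : Finset (Fin n → ZMod 2) := Finset.univ.filter fun t => ∑ i, t i * p i = 0 with hEdef
  set N : ℝ := ((Finset.univ.filter fun x => ∀ i, u i x = p i).card : ℝ) with hN
  set x0 : ℝ := (Fintype.card X : ℝ) with hx0
  have hx0' : 0 ≤ x0 := by rw [hx0]; positivity
  have hlin : ∀ v : Fin n → ZMod 2, ∀ a b : Fin n → ZMod 2,
      ∑ i, (a + b) i * v i = ∑ i, a i * v i + ∑ i, b i * v i := by
    intro v a b
    rw [← Finset.sum_add_distrib]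
    refine Finset.sum_congr rfl fun i _ => ?_
    rw [Pi.add_apply, add_mul]
  have hEadd : ∀ a ∈ E, ∀ b ∈ E, a + b ∈ E := by
    intro a ha b hb
    simp only [hEdef, Finset.mem_filter, Finset.mem_univ, true_and] at ha hb ⊢
    rw [hlin, ha, hb, add_zero]
  have hEc : (2 : ℝ) ^ n ≤ 2 * E.card := by
    have h1 := card_half' (Finset.univ : Finset (Fin n → ZMod 2)) (fun _ _ _ _ => Finset.mem_univ _)
      (fun t => ∑ i, t i * p i) (hlin p)
    have h2 : (Finset.univ : Finset (Fin n → ZMod 2)).card = 2 ^ n := by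
      simp [Finset.card_univ]
    rw [h2] at h1
    exact_mod_cast h1
  have hE0 : 0 < (E.card : ℝ) := by
    have : (0 : ℝ) < 2 ^ n := by positivity
    linarith
  have hzero : (0 : Fin n → ZMod 2) ∈ E := by
    simp [hEdef]
  -- lower bound for each `x`
  have hlow : ∀ x : X, (E.card : ℝ) / 2 + (if (∀ i, u i x = p i) then (E.card : ℝ) / 2 else 0) ≤
      ((E.filter fun t => ∑ i, t i * u i x = 0).card : ℝ) := by
    intro x
    by_cases h : ∀ i, u i x = p i
    · rw [if_pos h]
      have : (E.filter fun t => ∑ i, t i * u i x = 0) = E := by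
        rw [Finset.filter_eq_self]
        intro t ht
        simp only [hEdef, Finset.mem_filter, Finset.mem_univ, true_and] at ht
        rw [← ht]
        exact Finset.sum_congr rfl fun i _ => by rw [h i]
      rw [this]
      linarith
    · rw [if_neg h]
      have h1 := card_half' E hEadd (fun t => ∑ i, t i * u i x) (hlin fun i => u i x)
      have h2 : (E.card : ℝ) ≤ 2 * ((E.filter fun t => ∑ i, t i * u i x = 0).card : ℝ) := by
        exact_mod_cast h1
      linarith
  have hup : ∀ t ∈ E, ((Finset.univ.filter fun x : X => ∑ i, t i * u i x = 0).card : ℝ) ≤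
      (1 / 2 + ε) * x0 + (if t = 0 then x0 / 2 else 0) := by
    intro t _
    by_cases h : t = 0
    · rw [if_pos h]
      have h1 : ((Finset.univ.filter fun x : X => ∑ i, t i * u i x = 0).card : ℝ) ≤ x0 := by
        rw [hx0]
        exact_mod_cast Finset.card_le_univ _
      nlinarith [mul_nonneg hε hx0']
    · rw [if_neg h, add_zero]
      obtain ⟨i, hi⟩ := Function.ne_iff.1 h
      have h1 := H (Finset.univ.filter fun i => t i = 1)
        ⟨i, by simp [(zmod2 (t i)).resolve_left hi]⟩
      refine le_trans (le_of_eq ?_) h1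
      congr 2
      ext x
      simp only [Finset.mem_filter, Finset.mem_univ, true_and]
      rw [sum_supp t (fun i => u i x)]
  have hswap : ∑ x : X, ((E.filter fun t => ∑ i, t i * u i x = 0).card : ℝ) =
      ∑ t ∈ E, ((Finset.univ.filter fun x : X => ∑ i, t i * u i x = 0).card : ℝ) := by
    simp only [Finset.card_filter, Nat.cast_sum]
    rw [Finset.sum_comm]
  have h1 := Finset.sum_le_sum fun x (_ : x ∈ (Finset.univ : Finset X)) => hlow x
  have h2 := Finset.sum_le_sum hup
  rw [Finset.sum_add_distrib, Finset.sum_const, ← Finset.sum_filter, Finset.sum_const,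
    Finset.card_univ, nsmul_eq_mul, nsmul_eq_mul, hswap] at h1
  rw [Finset.sum_add_distrib, Finset.sum_const, nsmul_eq_mul, Finset.sum_ite_eq' E 0,
    if_pos hzero] at h2
  have h3 : N * (E.card : ℝ) ≤ (2 * ε * E.card + 1) * x0 := by
    have h4 := h1.trans h2
    rw [← hx0] at h4
    rw [← hN] at h4
    nlinarith
  have h5 : (1 : ℝ) ≤ (1 / 2) ^ (n - 1) * E.card := by
    obtain ⟨m, rfl⟩ : ∃ m, n = m + 1 := ⟨n - 1, by omega⟩
    rw [Nat.add_sub_cancel]
    have h6 : (2 : ℝ) ^ m ≤ E.card := by
      rw [pow_succ] at hEc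
      linarith
    calc (1 : ℝ) = (1 / 2) ^ m * 2 ^ m := by rw [← mul_pow]; norm_num
      _ ≤ _ := by gcongr
  have h7 : N * (E.card : ℝ) ≤ (((1 / 2) ^ (n - 1) + 2 * ε) * x0) * (E.card : ℝ) := by
    nlinarith [mul_le_mul_of_nonneg_right h5 hx0']
  exact le_of_mul_le_mul_right h7 hE0

theorem PAT : S_PAT := by
  intro n X _ u R ε hn hε H hR
  by_contra hcon
  push Not at hcon
  -- supports of the columns
  let S : X → Finset (Fin n) := fun x => Finset.univ.filter fun i => u i x = 1
  have hchain : ∀ r ∈ R, ∀ r' ∈ R, S r ⊆ S r' ∨ S r' ⊆ S r := by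
    intro r hr r' hr'
    by_contra h
    push Not at h
    obtain ⟨h1, h2⟩ := h
    obtain ⟨j, hj1, hj2⟩ := Finset.not_subset.1 h1
    obtain ⟨i, hi1, hi2⟩ := Finset.not_subset.1 h2
    simp only [S, Finset.mem_filter, Finset.mem_univ, true_and] at hj1 hj2 hi1 hi2
    exact hcon i j r hr r' hr' ((zmod2 _).resolve_right hi2) hj1 hi1
      ((zmod2 _).resolve_right hj2)
  have hcard : ∀ r ∈ R, (S r).card ∈ Finset.range (n + 1) := by
    intro r _
    rw [Finset.mem_range]
    have := Finset.card_le_univ (S r)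
    rw [Fintype.card_fin] at this
    omega
  have hbound : ∀ m ∈ Finset.range (n + 1), ((R.filter fun r => (S r).card = m).card : ℝ) ≤
      ((1 / 2) ^ (n - 1) + 2 * ε) * Fintype.card X := by
    intro m _
    rcases Finset.eq_empty_or_nonempty (R.filter fun r => (S r).card = m) with he | ⟨r₀, hr₀⟩
    · rw [he]
      simp only [Finset.card_empty, Nat.cast_zero]
      positivity
    · rw [Finset.mem_filter] at hr₀
      refine le_trans ?_ (pat_bound n X u ε hn hε H (fun i => u i r₀))
      rw [Nat.cast_le]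
      apply Finset.card_le_card
      intro r hr
      rw [Finset.mem_filter] at hr
      simp only [Finset.mem_filter, Finset.mem_univ, true_and]
      have hS : S r = S r₀ := by
        rcases hchain r hr.1 r₀ hr₀.1 with h | h
        · exact Finset.eq_of_subset_of_card_le h (by rw [hr.2, hr₀.2])
        · exact (Finset.eq_of_subset_of_card_le h (by rw [hr.2, hr₀.2])).symm
      intro i
      have h1 : i ∈ S r ↔ i ∈ S r₀ := by rw [hS]
      simp only [S, Finset.mem_filter, Finset.mem_univ, true_and] at h1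
      rcases zmod2 (u i r) with h | h
      · rcases zmod2 (u i r₀) with h' | h'
        · rw [h, h']
        · rw [h1.2 h', h']
      · rw [h, h1.1 h]
  have hsum : (R.card : ℝ) = ∑ m ∈ Finset.range (n + 1),
      ((R.filter fun r => (S r).card = m).card : ℝ) := by
    rw [Finset.card_eq_sum_card_fiberwise hcard]
    push_cast
    rfl
  have := Finset.sum_le_sum hbound
  rw [← hsum, Finset.sum_const, Finset.card_range, nsmul_eq_mul] at this
  push_cast at this
  nlinarith

end Pool.Agent.Run7.h382.SR
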