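import Pool.Agent.Run7.h382.SR.UN1
import Pool.Agent.Run7.h382.SR.M16
import Pool.Agent.Run7.h382.SR.CAND

/-!
Piece UNI (assembly of the units part) of helper245's project SR.
-/

set_option autoImplicit false
set_option linter.all false

open Polynomial NumberField IsDedekindDomain
open scoped Classical

namespace Pool.Agent.Run7.h382.SR

open Pool.Agent.Run7.h245.SR
open Pool.Agent.N783.PF
open Pool.Agent.N874.PP (Ev Sq1 U0)

theorem exists_poly {F L : Type} [Field F] [NumberField F] [Field L] [NumberField L]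
    [Algebra F L] {g : ℕ} {f : (𝓞 F)[X]} {θ : L} (hG : IsGen g f θ) (x : L) :
    ∃ h₀ : F[X], aeval θ h₀ = x := by
  obtain ⟨c, hc⟩ := hG.gen x
  refine ⟨∑ i : Fin (2 * g + 1), C (c i) * X ^ (i : ℕ), ?_⟩
  rw [hc, map_sum]
  refine Finset.sum_congr rfl fun i _ => ?_
  rw [map_mul, aeval_C, map_pow, aeval_X]

theorem uni (h1 : S_UN1) (h2 : S_CLF) (h3 : S_NEV) (h4 : S_M16) (h5 : S_SQ2) (h6 : S_SQR)
    (h7 : S_EXQ) : S_UNI := by
  intro F _ _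
  obtain ⟨n₁, cl, hcl⟩ := h2 F
  obtain ⟨N, hN⟩ := h4 (Module.finrank ℚ F * 3)
  refine ⟨n₁ * N, ?_⟩
  intro L _ _ _ f θ W S 𝔮 r P hG hSq hf2 hsep hgood hcg
  obtain ⟨κ, hκ⟩ := hN L (by rw [← Module.finrank_mul_finrank ℚ F L, hG.rank])
  have hex : ∀ q : ℕ, ∃ 𝔔 : HeightOneSpectrum (𝓞 L), q ∈ S → Ov (𝔮 q) 𝔔 ∧ 𝔔.valuation L θ = 1 := by
    intro q
    by_cases hq : q ∈ S
    · obtain ⟨𝔓₁, 𝔓₂, _, a2, _, a4, _⟩ := h7 1 W F L f θ S 𝔮 r P le_rfl hG hSq hgood q hq (hcg q hq)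
      exact ⟨𝔓₂, fun _ => ⟨a2, a4⟩⟩
    · obtain ⟨p, hp0, hp⟩ := Ring.not_isField_iff_exists_prime.1 (RingOfIntegers.not_isField L)
      exact ⟨⟨p, hp, hp0⟩, fun h => absurd h hq⟩
  choose Q hQ using hex
  have hqQ : ∀ q ∈ S, (q : 𝓞 L) ∈ (Q q).asIdeal := by
    intro q hq
    have a1 := (hQ q hq).1 _ (hgood q hq).2.2.2.2.2.2.1
    rwa [map_natCast] at a1
  have hQinj : Set.InjOn Q S := by
    intro q hq q' hq' h
    by_contra hne
    have hcop : Nat.Coprime q q' := (Nat.coprime_primes (hgood q hq).1 (hgood q' hq').1).2 hne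
    have a1 := hqQ q hq
    have a2 := hqQ q' hq'
    rw [← h] at a2
    apply (Q q).isPrime.ne_top
    rw [Ideal.eq_top_iff_one]
    have a3 : IsCoprime (q : ℤ) (q' : ℤ) := Nat.isCoprime_iff_coprime.2 hcop
    obtain ⟨u, v, huv⟩ := a3
    have a4 : ((u * q + v * q' : ℤ) : 𝓞 L) = 1 := by rw [huv]; simp
    rw [← a4]
    push_cast
    exact Ideal.add_mem _ (Ideal.mul_mem_left _ _ a1) (Ideal.mul_mem_left _ _ a2)
  obtain ⟨X₀, hX₀c, hX₀1, hX₀2⟩ := h1 L (S.image Q)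
  rw [Finset.card_image_of_injOn hQinj] at hX₀c
  have hval : ∀ x ∈ X₀, ∀ 𝔓 : HeightOneSpectrum (𝓞 L),
      (∀ q ∈ S, Ov (𝔮 q) 𝔓 → 𝔓.valuation L θ ≠ 1) → 𝔓.valuation L x = 1 := by
    intro x hx 𝔓 h
    refine (hX₀1 x hx).2 𝔓 ?_
    intro hmem
    obtain ⟨q, hq, rfl⟩ := Finset.mem_image.1 hmem
    exact h q hq (hQ q hq).1 (hQ q hq).2
  have hval2 : ∀ x ∈ X₀, ∀ 𝔓 : HeightOneSpectrum (𝓞 L), (2 : 𝓞 L) ∈ 𝔓.asIdeal →
      𝔓.valuation L x = 1 := by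
    intro x hx 𝔓 h
    refine (hX₀1 x hx).2 𝔓 ?_
    intro hmem
    obtain ⟨q, hq, rfl⟩ := Finset.mem_image.1 hmem
    refine odd_notMem h ?_ (hqQ q hq)
    have := (hgood q hq).2.2.2.1
    rw [Nat.odd_iff]
    omega
  have hev : ∀ x ∈ X₀, ∀ w : HeightOneSpectrum (𝓞 F), Ev w (Algebra.norm F x) := fun x hx =>
    h3 1 W F L f θ S 𝔮 r P le_rfl hG hSq hgood hcg x (hX₀1 x hx).1 (hval x hx)
  have hX₀ne : X₀.Nonempty := by
    rw [← Finset.card_pos, hX₀c]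
    positivity
  obtain ⟨z, hz⟩ := pigeon X₀ hX₀ne (fun x => (cl (Algebra.norm F x), κ x)) (n₁ * N)
    (by rw [Fintype.card_prod, Fintype.card_fin, Fintype.card_fin])
  set X₁ := X₀.filter fun x => (cl (Algebra.norm F x), κ x) = z with hX₁
  have hX₁c : X₀.card ≤ n₁ * N * X₁.card := by
    rw [hX₁]
    convert hz using 3
    ext q
    simp only [Finset.mem_filter]
  have hX₁ne : X₁.Nonempty := by
    rw [Finset.nonempty_iff_ne_empty]
    intro h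
    rw [h, Finset.card_empty, mul_zero, Nat.le_zero, Finset.card_eq_zero] at hX₁c
    exact hX₀ne.ne_empty hX₁c
  obtain ⟨x₀, hx₀⟩ := hX₁ne
  have hx₀' := Finset.mem_filter.1 hx₀
  have hx₀0 : x₀ ≠ 0 := (hX₀1 x₀ hx₀'.1).1
  have hinj : Function.Injective fun x : L => x * x₀ := mul_left_injective₀ hx₀0
  refine ⟨X₁.image fun x => x * x₀, ?_, ?_, ?_⟩
  · rw [Finset.card_image_of_injective _ hinj, ← hX₀c]
    refine hX₁c.trans (Nat.mul_le_mul_right _ ?_)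
    exact Nat.lt_two_pow_self.le
  · intro x hx y hy hne
    obtain ⟨x', hx', rfl⟩ := Finset.mem_image.1 hx
    obtain ⟨y', hy', rfl⟩ := Finset.mem_image.1 hy
    have hne' : x' ≠ y' := fun h => hne (by rw [h])
    intro hsq
    refine hX₀2 x' (Finset.mem_filter.1 hx').1 y' (Finset.mem_filter.1 hy').1 hne' ?_
    obtain ⟨s, hs⟩ := hsq
    refine ⟨s / x₀, ?_⟩
    field_simp
    linear_combination hs
  · intro x hx
    obtain ⟨x', hx', rfl⟩ := Finset.mem_image.1 hx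
    have hx'' := Finset.mem_filter.1 hx'
    have hx'0 : x' ≠ 0 := (hX₀1 x' hx''.1).1
    have heq : (cl (Algebra.norm F x'), κ x') = (cl (Algebra.norm F x₀), κ x₀) :=
      hx''.2.trans hx₀'.2.symm
    rw [Prod.mk.injEq] at heq
    have hM := hκ x' x₀ hx'0 hx₀0 (hval2 x' hx''.1) (hval2 x₀ hx₀'.1) heq.2
    refine ⟨mul_ne_zero hx'0 hx₀0, ?_, ?_, ?_⟩
    · rw [map_mul]
      exact hcl _ _ (Algebra.norm_ne_zero_iff.2 hx'0) (Algebra.norm_ne_zero_iff.2 hx₀0)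
        (hev x' hx''.1) (hev x₀ hx₀'.1) heq.1
    · intro 𝔓 h𝔓
      refine ⟨1, ?_⟩
      rw [map_mul, hval x' hx''.1 𝔓 h𝔓, hval x₀ hx₀'.1 𝔓 h𝔓, map_one]
      simp
    · obtain ⟨h₀, hh₀⟩ := exists_poly hG (x' * x₀)
      refine ⟨h₀, hh₀, ?_, ?_⟩
      · intro w hw
        obtain ⟨⟨u, z, hu, huz, hzv⟩, _⟩ := hM
        refine h5 1 F L f θ le_rfl hG w hw (hsep w hw) h₀ u z (hh₀.trans huz) ?_
        intro 𝔓 h𝔓
        refine hzv 𝔓 ?_
        have := h𝔓 _ hw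
        rwa [map_ofNat] at this
      · intro σ
        refine h6 F L f θ hG hf2 h₀ ?_ σ
        rw [hh₀]
        exact hM.2

end Pool.Agent.Run7.h382.SR
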